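import Mathlib

namespace Pool.Agent.H.MP_f8e4dc_lc

open FirstOrder FirstOrder.Language Filter

universe w

variable {U : Type*} [BooleanAlgebra U] {ι : Type*}

def sg (b : Bool) (x : U) : U := cond b x xᶜ

def atm [Fintype ι] (v : ι → U) (S : ι → Bool) : U := Finset.univ.inf fun i => sg (S i) (v i)

theorem le_atm [Fintype ι] {v : ι → U} {S : ι → Bool} {z : U} :
    z ≤ atm v S ↔ ∀ i, z ≤ sg (S i) (v i) := by simp [atm]

theorem atm_le [Fintype ι] (v : ι → U) (S : ι → Bool) (i : ι) : atm v S ≤ sg (S i) (v i) :=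
  le_atm.1 le_rfl i

theorem sg_disj {b c : Bool} (h : b ≠ c) (x : U) : sg b x ⊓ sg c x = ⊥ := by
  cases b <;> cases c <;> simp_all [sg]

theorem atm_disj [Fintype ι] (v : ι → U) {S T : ι → Bool} (h : S ≠ T) :
    atm v S ⊓ atm v T = ⊥ := by
  obtain ⟨i, hi⟩ := Function.ne_iff.1 h
  exact le_bot_iff.1 ((inf_le_inf (atm_le v S i) (atm_le v T i)).trans (sg_disj hi _).le)

theorem split_sg {z : U} (h : z ≠ ⊥) (x : U) : ∃ b, z ⊓ sg b x ≠ ⊥ := by
  by_contra c
  push Not at c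
  apply h
  rw [← sup_inf_inf_compl (x := z) (y := x)]
  exact sup_eq_bot_iff.2 ⟨c true, c false⟩

theorem meets [Fintype ι] (v : ι → U) {z : U} (h : z ≠ ⊥) : ∃ S, z ⊓ atm v S ≠ ⊥ := by
  classical
  have : ∀ s : Finset ι, ∃ S : ι → Bool, z ⊓ s.inf (fun i => sg (S i) (v i)) ≠ ⊥ := by
    intro s
    induction s using Finset.induction_on with
    | empty => exact ⟨fun _ => true, by simpa using h⟩
    | insert a s ha ih =>
      obtain ⟨S, hS⟩ := ih
      obtain ⟨b, hb⟩ := split_sg hS (v a)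
      refine ⟨Function.update S a b, ?_⟩
      rw [Finset.inf_insert, Function.update_self, Finset.inf_congr rfl
        (g := fun i => sg (S i) (v i)) fun i hi => by
          rw [Function.update_of_ne (by rintro rfl; exact ha hi)] ]
      rwa [inf_comm (sg b _), ← inf_assoc]
  exact this _

theorem glue [Fintype ι] (w : ι → U) (f : (ι → Bool) → U) (hf : ∀ S, f S ≤ atm w S) :
    ∃ b, ∀ S, b ⊓ atm w S = f S := by
  classical
  refine ⟨Finset.univ.sup f, fun S => le_antisymm ?_ (le_inf (Finset.le_sup (Finset.mem_univ _))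
    (hf S))⟩
  rw [Finset.sup_inf_distrib_right, Finset.sup_le_iff]
  intro T _
  by_cases h : T = S
  · subst h; exact inf_le_left
  · exact ((inf_le_inf_right _ (hf T)).trans (atm_disj w h).le).trans bot_le

def Sim [Fintype ι] (v w : ι → U) : Prop := ∀ S, atm v S = ⊥ ↔ atm w S = ⊥

theorem Sim.symm [Fintype ι] {v w : ι → U} (h : Sim v w) : Sim w v := fun S => (h S).symm

theorem Sim.le [Fintype ι] {v w : ι → U} (h : Sim v w) {i j : ι} (a : v i ≤ v j) : w i ≤ w j := by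
  by_contra c
  obtain ⟨S, hS⟩ := meets w (z := w i ⊓ (w j)ᶜ) (by
    rwa [← sdiff_eq, Ne, sdiff_eq_bot_iff])
  have h1 : S i = true := by
    by_contra d
    exact hS (le_bot_iff.1 ((inf_le_inf inf_le_left (atm_le w S i)).trans
      (sg_disj (b := true) (Ne.symm d) _).le))
  have h2 : S j = false := by
    by_contra d
    exact hS (le_bot_iff.1 ((inf_le_inf inf_le_right (atm_le w S j)).trans
      (sg_disj (b := false) (Ne.symm d) _).le))
  have h3 := atm_le v S i
  have h4 := atm_le v S j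
  rw [h1] at h3
  rw [h2] at h4
  have : atm v S = ⊥ := le_bot_iff.1 ((le_inf (h3.trans a) h4).trans
    (sg_disj (b := true) (c := false) (by simp) _).le)
  exact hS (by rw [(h S).1 this, inf_bot_eq])

theorem atm_opt [Fintype ι] (v : ι → U) (a : U) (S : Option ι → Bool) :
    atm (fun o => o.elim a v) S = sg (S none) a ⊓ atm v (S ∘ some) :=
  eq_of_forall_le_iff fun z => by simp [le_atm, Option.forall]

theorem atm_sum {κ : Type*} [Fintype ι] [Fintype κ] (v : ι → U) (w : κ → U) (S : ι ⊕ κ → Bool) :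
    atm (Sum.elim v w) S = atm v (S ∘ .inl) ⊓ atm w (S ∘ .inr) :=
  eq_of_forall_le_iff fun z => by simp [le_atm]

theorem cut (H : ∀ a : U, ¬IsAtom a) (a : U) :
    ∃ b, b ≤ a ∧ (a ≠ ⊥ → b ≠ ⊥ ∧ bᶜ ⊓ a ≠ ⊥) := by
  by_cases h : a = ⊥
  · exact ⟨a, le_rfl, fun x => (x h).elim⟩
  have := H a
  simp only [IsAtom, not_and, not_forall] at this
  obtain ⟨b, h1, h2⟩ := this h
  refine ⟨b, h1.le, fun _ => ⟨h2, fun c => h1.not_ge ?_⟩⟩
  rwa [inf_comm, ← sdiff_eq, sdiff_eq_bot_iff] at c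

theorem compl_inf_of {b a f : U} (h : b ⊓ a = f) : bᶜ ⊓ a = fᶜ ⊓ a := by
  rw [← h, compl_inf, inf_sup_right]; simp

theorem Sim.ext (H : ∀ a : U, ¬IsAtom a) [Fintype ι] {v w : ι → U} (h : Sim v w) (a : U) :
    ∃ b, Sim (fun o : Option ι => o.elim a v) (fun o => o.elim b w) := by
  classical
  have : ∀ S, ∃ f, f ≤ atm w S ∧ (a ⊓ atm v S = ⊥ ↔ f = ⊥) ∧
      (aᶜ ⊓ atm v S = ⊥ ↔ fᶜ ⊓ atm w S = ⊥) := by
    intro S
    by_cases h1 : a ⊓ atm v S = ⊥
    · refine ⟨⊥, bot_le, by simp [h1], ?_⟩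
      rw [compl_inf_of h1]
      simpa using h S
    by_cases h2 : aᶜ ⊓ atm v S = ⊥
    · refine ⟨atm w S, le_rfl, ?_, by simp [h2]⟩
      simp only [h1, false_iff, ← h S]
      intro c
      exact h1 (by rw [c, inf_bot_eq])
    obtain ⟨b, h3, h4⟩ := cut H (atm w S)
    have := h4 fun c => h1 (by rw [(h S).2 c, inf_bot_eq])
    exact ⟨b, h3, by simp [h1, this.1], by simp [h2, this.2]⟩
  choose f h1 h2 h3 using this
  obtain ⟨b, hb⟩ := glue w f h1
  refine ⟨b, fun S => ?_⟩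
  rw [atm_opt, atm_opt]
  cases S none
  · simp only [sg, cond_false]
    rw [compl_inf_of (hb _), h3]
  · simp only [sg, cond_true]
    rw [hb, h2]

theorem splits (H : ∀ a : U, ¬IsAtom a) (F : Finset U) :
    ∃ y, ∀ c ∈ F, c ≠ ⊥ → ∀ b, c ⊓ sg b y ≠ ⊥ := by
  classical
  choose f h1 h2 using fun S => cut H (atm (fun c : F => c.1) S)
  obtain ⟨y, hy⟩ := glue _ f h1
  refine ⟨y, fun c hc h b d => ?_⟩
  obtain ⟨S, hS⟩ := meets (fun c : F => c.1) h
  have h3 : S ⟨c, hc⟩ = true := by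
    by_contra d
    exact hS (le_bot_iff.1 ((inf_le_inf_left _ (atm_le _ S ⟨c, hc⟩)).trans
      (sg_disj (b := true) (Ne.symm d) _).le))
  have h4 := atm_le (fun c : F => c.1) S ⟨c, hc⟩
  rw [h3] at h4
  have h5 := h2 S fun e => hS (by rw [e, inf_bot_eq])
  have h6 : sg b y ⊓ atm (fun c : F => c.1) S = ⊥ :=
    le_bot_iff.1 ((le_inf (inf_le_right.trans h4) inf_le_left).trans d.le)
  cases b
  · exact h5.2 (by rw [← compl_inf_of (hy S)]; exact h6)
  · exact h5.1 (by rw [← hy S]; exact h6)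

variable [Language.order.Structure U] [Language.order.OrderedStructure U]

theorem qe (H : ∀ a : U, ¬IsAtom a) {α : Type*} {n : ℕ} (φ : Language.order.BoundedFormula α n) :
    ∀ (ι : Type w) [Fintype ι] (v w : ι → U) (f : α → ι) (g : Fin n → ι), Sim v w →
      (φ.Realize (v ∘ f) (v ∘ g) ↔ φ.Realize (w ∘ f) (w ∘ g)) := by
  have tm : ∀ {n} (t : Language.order.Term (α ⊕ Fin n)) {ι : Type w} (f : α → ι) (g : Fin n → ι),
      ∃ i, ∀ v : ι → U, t.realize (Sum.elim (v ∘ f) (v ∘ g)) = v i := by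
    intro n t ι f g
    cases t with
    | var x => exact ⟨Sum.elim f g x, fun v => by cases x <;> rfl⟩
    | func e => exact e.elim
  induction φ with
  | falsum => intros; rfl
  | equal s t =>
    intro ι _ v w f g h
    obtain ⟨i, hi⟩ := tm s f g
    obtain ⟨j, hj⟩ := tm t f g
    simp only [BoundedFormula.Realize, hi, hj, le_antisymm_iff]
    exact ⟨fun a => ⟨h.le a.1, h.le a.2⟩, fun a => ⟨h.symm.le a.1, h.symm.le a.2⟩⟩
  | rel R t =>
    intro ι _ v w f g h
    cases R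
    obtain ⟨i, hi⟩ := tm (t 0) f g
    obtain ⟨j, hj⟩ := tm (t 1) f g
    simp only [BoundedFormula.Realize]
    refine (relMap_leSymb _).trans (Iff.trans ?_ (relMap_leSymb _).symm)
    simp only [hi, hj]
    exact ⟨h.le, h.symm.le⟩
  | imp a b iha ihb =>
    intro ι _ v w f g h
    simp only [BoundedFormula.realize_imp, iha ι v w f g h, ihb ι v w f g h]
  | all a ih =>
    have k : ∀ (ι : Type w) [Fintype ι] (v w : ι → U) (f : α → ι) (g : Fin _ → ι), Sim v w →
        a.all.Realize (w ∘ f) (w ∘ g) → a.all.Realize (v ∘ f) (v ∘ g) := by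
      intro ι _ v w f g h c
      rw [BoundedFormula.realize_all] at c ⊢
      intro x
      obtain ⟨y, hy⟩ := h.ext H x
      have := ih (Option ι) _ _ (some ∘ f) (Fin.snoc (some ∘ g) none) hy
      rw [Fin.comp_snoc, Fin.comp_snoc] at this
      exact this.2 (c y)
    intro ι _ v w f g h
    exact ⟨k ι w v f g h.symm, k ι v w f g h⟩

end Pool.Agent.H.MP_f8e4dc_lc
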